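import Mathlib

open scoped Pointwise

namespace Pool.Agent.Lib.Pd40e3c

variable {G : Type*} [AddCommGroup G] [DecidableEq G]

/-- `D` is a nonempty finite subset of `⟨C⟩` with `D + C ≠ ⟨C⟩`. -/
private def Fr (C D : Finset G) : Prop :=
  D.Nonempty ∧ (∀ d ∈ D, d ∈ AddSubgroup.closure (C : Set G)) ∧
    ∃ h ∈ AddSubgroup.closure (C : Set G), h ∉ D + C

private lemma mem_closure_add {C D : Finset G}
    (hD : ∀ d ∈ D, d ∈ AddSubgroup.closure (C : Set G)) {x : G} (hx : x ∈ D + C) :
    x ∈ AddSubgroup.closure (C : Set G) := by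
  obtain ⟨d, hd, c, hc, rfl⟩ := Finset.mem_add.1 hx
  exact add_mem (hD d hd) (AddSubgroup.subset_closure hc)

private lemma Fr_vadd {C D : Finset G} (hF : Fr C D) {x : G}
    (hx : x ∈ AddSubgroup.closure (C : Set G)) : Fr C (x +ᵥ D) := by
  obtain ⟨h1, h2, h, hh, hn⟩ := hF
  refine ⟨h1.vadd_finset, ?_, x + h, add_mem hx hh, ?_⟩
  · intro d hd
    obtain ⟨e, he, rfl⟩ := Finset.mem_vadd_finset.1 hd
    exact add_mem hx (h2 e he)
  · intro hmem
    apply hn
    rw [Finset.mem_add] at hmem
    obtain ⟨d, hd, c, hc, hdc⟩ := hmem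
    obtain ⟨e, he, rfl⟩ := Finset.mem_vadd_finset.1 hd
    rw [Finset.mem_add]
    refine ⟨e, he, c, hc, ?_⟩
    simp only [vadd_eq_add] at hdc
    have : x + (e + c) = x + h := by rw [← add_assoc]; exact hdc
    exact add_left_cancel this

private lemma vadd_add (x : G) (D C : Finset G) : (x +ᵥ D) + C = x +ᵥ (D + C) := by
  ext y
  simp only [Finset.mem_add, Finset.mem_vadd_finset, vadd_eq_add]
  constructor
  · rintro ⟨_, ⟨d, hd, rfl⟩, c, hc, rfl⟩
    exact ⟨d + c, ⟨d, hd, c, hc, rfl⟩, by rw [add_assoc]⟩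
  · rintro ⟨_, ⟨d, hd, c, hc, rfl⟩, rfl⟩
    exact ⟨x + d, ⟨d, hd, rfl⟩, c, hc, by rw [add_assoc]⟩

/-- **Growth lemma** (Olson / Hamidoune). -/
theorem growth (C : Finset G) (h0 : (0 : G) ∈ C) (hsym : ∀ c ∈ C, -c ∈ C) (D : Finset G)
    (hD : D.Nonempty) (hDH : ∀ d ∈ D, d ∈ AddSubgroup.closure (C : Set G))
    (hne : ∃ h ∈ AddSubgroup.closure (C : Set G), h ∉ D + C) :
    2 * D.card + C.card ≤ 2 * (D + C).card := by
  classical
  have hsub : ∀ E : Finset G, E ⊆ E + C := fun E x hx =>
    Finset.mem_add.2 ⟨x, hx, 0, h0, add_zero x⟩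
  -- minimal boundary
  have hex : ∃ k, ∃ E, Fr C E ∧ (E + C).card = E.card + k :=
    ⟨(D + C).card - D.card, D, ⟨hD, hDH, hne⟩, by
      have := Finset.card_le_card (hsub D); omega⟩
  set κ := Nat.find hex with hκ
  have hmin : ∀ E, Fr C E → E.card + κ ≤ (E + C).card := by
    intro E hE
    have h1 := Finset.card_le_card (hsub E)
    have h2 : κ ≤ (E + C).card - E.card := Nat.find_min' hex ⟨E, hE, by omega⟩
    omega
  have hex2 : ∃ m, ∃ E, Fr C E ∧ (E + C).card = E.card + κ ∧ E.card = m := by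
    obtain ⟨E, hE, hE2⟩ := Nat.find_spec hex
    exact ⟨E.card, E, hE, hE2, rfl⟩
  set m := Nat.find hex2 with hm
  have hmin2 : ∀ E, Fr C E → (E + C).card = E.card + κ → m ≤ E.card := fun E hE hE2 =>
    Nat.find_min' hex2 ⟨E, hE, hE2, rfl⟩
  obtain ⟨M0, hM0, hM0c, hM0m⟩ := Nat.find_spec hex2
  rw [← hm] at hM0m
  -- translate so that `0 ∈ M`
  obtain ⟨z, hz⟩ := hM0.1
  set M := (-z) +ᵥ M0 with hM
  have hzH := hM0.2.1 z hz
  have hMF : Fr C M := Fr_vadd hM0 (neg_mem hzH)
  have hMc : M.card = m := by rw [hM, Finset.card_vadd_finset, hM0m]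
  have hMC : (M + C).card = M.card + κ := by
    rw [hM, vadd_add, Finset.card_vadd_finset, Finset.card_vadd_finset, hM0c]
  have h0M : (0 : G) ∈ M := by
    rw [hM, Finset.mem_vadd_finset]
    exact ⟨z, hz, by simp⟩
  -- key: translation invariance
  have hinv : ∀ x ∈ M, x +ᵥ M = M := by
    intro x hx
    set F := x +ᵥ M with hF
    have hxH := hMF.2.1 x hx
    have hFF : Fr C F := Fr_vadd hMF hxH
    have hFc : F.card = M.card := by rw [hF, Finset.card_vadd_finset]
    have hFC : (F + C).card = F.card + κ := by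
      rw [hF, vadd_add, Finset.card_vadd_finset, Finset.card_vadd_finset, hMC]
    have hxF : x ∈ F := by
      rw [hF, Finset.mem_vadd_finset]; exact ⟨0, h0M, by simp⟩
    have hI : Fr C (M ∩ F) := by
      refine ⟨⟨x, Finset.mem_inter.2 ⟨hx, hxF⟩⟩, fun d hd => hMF.2.1 d (Finset.mem_inter.1 hd).1, ?_⟩
      obtain ⟨h, hh, hn⟩ := hMF.2.2
      exact ⟨h, hh, fun h' => hn (Finset.add_subset_add_right Finset.inter_subset_left h')⟩
    have hsubI : (M ∩ F) + C ⊆ (M + C) ∩ (F + C) := by
      intro y hy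
      rw [Finset.mem_inter]
      exact ⟨Finset.add_subset_add_right Finset.inter_subset_left hy,
        Finset.add_subset_add_right Finset.inter_subset_right hy⟩
    have hunion : (M ∪ F) + C = (M + C) ∪ (F + C) := Finset.union_add
    have hc1 := Finset.card_le_card hsubI
    have hc2 := Finset.card_union_add_card_inter (M + C) (F + C)
    have hc3 := hmin _ hI
    have hc4 := Finset.card_union_add_card_inter M F
    have hI1 : 1 ≤ (M ∩ F).card := hI.1.card_pos
    have hle : (M ∩ F).card ≤ M.card := Finset.card_le_card Finset.inter_subset_left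
    by_cases hcase : ∃ h ∈ AddSubgroup.closure (C : Set G), h ∉ (M ∪ F) + C
    · have hU : Fr C (M ∪ F) := by
        refine ⟨⟨x, Finset.mem_union_left _ hx⟩, ?_, hcase⟩
        intro d hd
        rcases Finset.mem_union.1 hd with h | h
        · exact hMF.2.1 d h
        · exact hFF.2.1 d h
      have hc5 := hmin _ hU
      rw [hunion] at hc5
      have hfrag : ((M ∩ F) + C).card = (M ∩ F).card + κ := by omega
      have hc6 := hmin2 _ hI hfrag
      have hMI : M ∩ F = M := Finset.eq_of_subset_of_card_le Finset.inter_subset_left (by omega)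
      have hMF' : M ⊆ F := Finset.inter_eq_left.1 hMI
      exact (Finset.eq_of_subset_of_card_le hMF' (by omega)).symm
    · exfalso
      push Not at hcase
      -- here `⟨C⟩ = (M ∪ F) + C` is finite
      set N := ((M ∪ F) + C) \ (F + C) with hN
      have hNH : ∀ y, y ∈ (M ∪ F) + C → y ∈ AddSubgroup.closure (C : Set G) := by
        intro y hy
        rw [hunion] at hy
        rcases Finset.mem_union.1 hy with h | h
        · exact mem_closure_add hMF.2.1 h
        · exact mem_closure_add hFF.2.1 h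
      have hFCsub : F + C ⊆ (M ∪ F) + C := Finset.add_subset_add_right Finset.subset_union_right
      have hNcard : N.card + (F + C).card = ((M ∪ F) + C).card := by
        rw [hN]; exact Finset.card_sdiff_add_card_eq_card hFCsub
      have hNne : N.Nonempty := by
        obtain ⟨h, hh, hn⟩ := hFF.2.2
        exact ⟨h, Finset.mem_sdiff.2 ⟨hcase h hh, hn⟩⟩
      have hFsub : F ⊆ (M ∪ F) + C := (hsub F).trans hFCsub
      have hNC : N + C ⊆ ((M ∪ F) + C) \ F := by
        intro y hy
        obtain ⟨u, hu, c, hc, rfl⟩ := Finset.mem_add.1 hy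
        rw [Finset.mem_sdiff]
        have hu' := Finset.mem_sdiff.1 hu
        refine ⟨hcase _ (add_mem (hNH u hu'.1) (AddSubgroup.subset_closure hc)), ?_⟩
        intro hucF
        apply hu'.2
        rw [Finset.mem_add]
        exact ⟨u + c, hucF, -c, hsym c hc, by abel⟩
      have hNFr : Fr C N := by
        refine ⟨hNne, fun d hd => hNH d (Finset.mem_sdiff.1 hd).1, x, hxH, ?_⟩
        intro hmem
        exact (Finset.mem_sdiff.1 (hNC hmem)).2 hxF
      have hc7 := hmin _ hNFr
      have hc8 := Finset.card_le_card hNC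
      have hc9 : (((M ∪ F) + C) \ F).card + F.card = ((M ∪ F) + C).card :=
        Finset.card_sdiff_add_card_eq_card hFsub
      have hfrag : (N + C).card = N.card + κ := by omega
      have hc10 := hmin2 _ hNFr hfrag
      rw [hunion] at hNcard hc9
      omega
  -- `M` is a subgroup
  have hadd : ∀ x ∈ M, ∀ y ∈ M, x + y ∈ M := by
    intro x hx y hy
    rw [← hinv x hx, Finset.mem_vadd_finset]
    exact ⟨y, hy, rfl⟩
  have hneg : ∀ x ∈ M, -x ∈ M := by
    intro x hx
    have : (0 : G) ∈ x +ᵥ M := by rw [hinv x hx]; exact h0M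
    rw [Finset.mem_vadd_finset] at this
    obtain ⟨y, hy, hxy⟩ := this
    simp only [vadd_eq_add] at hxy
    have : y = -x := by rw [eq_neg_iff_add_eq_zero, add_comm]; exact hxy
    rwa [← this]
  let K : AddSubgroup G :=
    { carrier := M
      add_mem' := fun {a b} ha hb => hadd a ha b hb
      zero_mem' := h0M
      neg_mem' := fun {a} ha => hneg a ha }
  have hCM : ∃ c ∈ C, c ∉ M := by
    by_contra hcon
    push Not at hcon
    have hcl : AddSubgroup.closure (C : Set G) ≤ K := by
      rw [AddSubgroup.closure_le]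
      intro c hc
      exact hcon c hc
    obtain ⟨h, hh, hn⟩ := hMF.2.2
    exact hn (hsub M (hcl hh))
  obtain ⟨c0, hc0, hc0M⟩ := hCM
  set C1 := C \ M with hC1
  have hdisj : Disjoint M (M + C1) := by
    rw [Finset.disjoint_left]
    intro y hy hy'
    obtain ⟨u, hu, c, hc, rfl⟩ := Finset.mem_add.1 hy'
    apply (Finset.mem_sdiff.1 hc).2
    have := hadd _ hy _ (hneg u hu)
    have h2 : u + c + -u = c := by abel
    rwa [h2] at this
  have hsub2 : M ∪ (M + C1) ⊆ M + C :=
    Finset.union_subset (hsub M) (Finset.add_subset_add_left Finset.sdiff_subset)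
  have hk1 : M.card + (M + C1).card ≤ (M + C).card := by
    rw [← Finset.card_union_of_disjoint hdisj]; exact Finset.card_le_card hsub2
  have hk2 : C1.card ≤ (M + C1).card := by
    apply Finset.card_le_card
    intro c hc
    exact Finset.mem_add.2 ⟨0, h0M, c, hc, zero_add c⟩
  have hk3 : M.card ≤ (M + C1).card := by
    apply Finset.card_le_card_add_right
    exact ⟨c0, Finset.mem_sdiff.2 ⟨hc0, hc0M⟩⟩
  have hk4 : C.card ≤ M.card + C1.card := by
    have h1 : C ⊆ M ∪ C1 := by
      intro c hc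
      by_cases h : c ∈ M
      · exact Finset.mem_union_left _ h
      · exact Finset.mem_union_right _ (Finset.mem_sdiff.2 ⟨hc, h⟩)
    exact (Finset.card_le_card h1).trans (Finset.card_union_le _ _)
  have hfin := hmin D ⟨hD, hDH, hne⟩
  omega

end Pool.Agent.Lib.Pd40e3c
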