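import Mathlib
import Pool.Agent.Lib.Pd40e3c.Growth

open scoped Pointwise

namespace Pool.Agent.Lib.Pd40e3c

variable {G : Type*} [AddCommGroup G] [DecidableEq G]

/-- Olson's function `λ_B(g) = |(B + g) \ B|`. -/
def lam (B : Finset G) (g : G) : ℕ := (B.filter (fun b => b + g ∉ B)).card

lemma lam_zero (B : Finset G) : lam B 0 = 0 := by
  rw [lam, Finset.card_eq_zero, Finset.filter_eq_empty_iff]
  intro x hx
  simpa using hx

lemma lam_add (B : Finset G) (g h : G) : lam B (g + h) ≤ lam B g + lam B h := by
  have h1 : B.filter (fun b => b + (g + h) ∉ B) ⊆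
      B.filter (fun b => b + g ∉ B) ∪ (B.filter (fun b => b + h ∉ B)).image (fun b => b - g) := by
    intro b hb
    rw [Finset.mem_filter] at hb
    rw [Finset.mem_union, Finset.mem_filter, Finset.mem_image]
    by_cases hg : b + g ∈ B
    · right
      refine ⟨b + g, Finset.mem_filter.2 ⟨hg, ?_⟩, by abel⟩
      rw [add_assoc]; exact hb.2
    · left; exact ⟨hb.1, hg⟩
  have h2 := Finset.card_le_card h1
  have h3 := Finset.card_union_le (B.filter (fun b => b + g ∉ B))
    ((B.filter (fun b => b + h ∉ B)).image (fun b => b - g))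
  have h4 : ((B.filter (fun b => b + h ∉ B)).image (fun b => b - g)).card ≤
    (B.filter (fun b => b + h ∉ B)).card := Finset.card_image_le
  unfold lam
  omega

lemma lam_neg (B : Finset G) (g : G) : lam B (-g) = lam B g := by
  have key : ∀ h : G, lam B h + (B.filter (fun b => b + h ∈ B)).card = B.card := by
    intro h
    rw [lam, add_comm]
    exact Finset.card_filter_add_card_filter_not (s := B) (fun b => b + h ∈ B)
  have h2 : (B.filter (fun b => b + -g ∈ B)).card = (B.filter (fun b => b + g ∈ B)).card := by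
    apply Finset.card_bij (fun b _ => b + -g)
    · intro b hb
      rw [Finset.mem_filter] at hb ⊢
      refine ⟨hb.2, ?_⟩
      have : b + -g + g = b := by abel
      rw [this]; exact hb.1
    · intro a _ b _ hab
      simpa using hab
    · intro b hb
      rw [Finset.mem_filter] at hb
      refine ⟨b + g, Finset.mem_filter.2 ⟨hb.2, ?_⟩, by abel⟩
      have : b + g + -g = b := by abel
      rw [this]; exact hb.1
  have h3 := key (-g)
  have h4 := key g
  omega

/-- The ball of radius `n` in the Cayley graph of `C`. -/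
def ball (C : Finset G) : ℕ → Finset G
  | 0 => {0}
  | n + 1 => ball C n + C

lemma ball_nonempty {C : Finset G} (h0 : (0 : G) ∈ C) (n : ℕ) : (0 : G) ∈ ball C n := by
  induction n with
  | zero => simp [ball]
  | succ n ih => exact Finset.mem_add.2 ⟨0, ih, 0, h0, add_zero 0⟩

lemma ball_mono_succ {C : Finset G} (h0 : (0 : G) ∈ C) (n : ℕ) : ball C n ⊆ ball C (n + 1) :=
  fun x hx => Finset.mem_add.2 ⟨x, hx, 0, h0, add_zero x⟩

lemma ball_mono {C : Finset G} (h0 : (0 : G) ∈ C) {m n : ℕ} (h : m ≤ n) :
    ball C m ⊆ ball C n := by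
  induction h with
  | refl => exact subset_rfl
  | step _ ih => exact ih.trans (ball_mono_succ h0 _)

lemma ball_closure {C : Finset G} (n : ℕ) :
    ∀ x ∈ ball C n, x ∈ AddSubgroup.closure (C : Set G) := by
  induction n with
  | zero => intro x hx; simp [ball] at hx; subst hx; exact zero_mem _
  | succ n ih =>
    intro x hx
    obtain ⟨d, hd, c, hc, rfl⟩ := Finset.mem_add.1 hx
    exact add_mem (ih d hd) (AddSubgroup.subset_closure hc)

lemma lam_ball {C : Finset G} {B : Finset G} {l : ℕ} (hl : ∀ c ∈ C, lam B c ≤ l) (n : ℕ) :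
    ∀ g ∈ ball C n, lam B g ≤ n * l := by
  induction n with
  | zero => intro x hx; simp [ball] at hx; subst hx; simp [lam_zero]
  | succ n ih =>
    intro x hx
    obtain ⟨d, hd, c, hc, rfl⟩ := Finset.mem_add.1 hx
    calc lam B (d + c) ≤ lam B d + lam B c := lam_add B d c
      _ ≤ n * l + l := by gcongr; exact ih d hd; exact hl c hc
      _ = (n + 1) * l := by ring

private lemma ball_card {C : Finset G} (h0 : (0 : G) ∈ C) (hsym : ∀ c ∈ C, -c ∈ C) (e : ℕ)
    (hH : ∃ T : Finset G, e ≤ T.card ∧ ∀ t ∈ T, t ∈ AddSubgroup.closure (C : Set G)) (k : ℕ) :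
    e ≤ (ball C (k + 1)).card ∨ (k + 2) * C.card ≤ 2 * (ball C (k + 1)).card := by
  induction k with
  | zero => right; simp [ball]
  | succ k ih =>
    by_cases hcase : ∃ h ∈ AddSubgroup.closure (C : Set G), h ∉ ball C (k + 1) + C
    · have hg := growth C h0 hsym (ball C (k + 1)) ⟨0, ball_nonempty h0 _⟩ (ball_closure _) hcase
      rcases ih with ih | ih
      · left
        exact ih.trans (Finset.card_le_card (ball_mono_succ h0 _))
      · right
        change _ ≤ 2 * (ball C (k + 1) + C).card
        nlinarith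
    · left
      push Not at hcase
      obtain ⟨T, hT, hT2⟩ := hH
      refine hT.trans (Finset.card_le_card ?_)
      intro t ht
      exact hcase t (hT2 t ht)

/-- A test set `E` of prescribed size with small total length. -/
lemma exists_test {C : Finset G} (h0 : (0 : G) ∈ C) (hsym : ∀ c ∈ C, -c ∈ C) (e : ℕ)
    (he : C.card ≤ e)
    (hH : ∃ T : Finset G, e ≤ T.card ∧ ∀ t ∈ T, t ∈ AddSubgroup.closure (C : Set G)) :
    ∃ E : Finset G, E.card = e ∧ (∀ g ∈ E, g ∈ AddSubgroup.closure (C : Set G)) ∧
      ∀ (f : G → ℕ) (l : ℕ), (∀ n, ∀ g ∈ ball C n, f g ≤ n * l) →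
        C.card * (∑ g ∈ E, f g) ≤ l * e ^ 2 := by
  classical
  have hCpos : 1 ≤ C.card := Finset.card_pos.2 ⟨0, h0⟩
  have hsize := ball_card h0 hsym e hH
  have hex : ∃ k, e ≤ (ball C k).card := by
    refine ⟨2 * e + 1, ?_⟩
    rcases hsize (2 * e) with h | h
    · exact h
    · nlinarith
  set K := Nat.find hex with hK
  have hK1 : e ≤ (ball C K).card := Nat.find_spec hex
  have hK2 : ∀ k < K, (ball C k).card < e := fun k hk => by
    have := Nat.find_min hex hk
    omega
  -- choose E
  obtain ⟨E, hEsub, hEcard, hEsup⟩ : ∃ E : Finset G, E ⊆ ball C K ∧ E.card = e ∧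
      ∀ k < K, ball C k ⊆ E := by
    rcases Nat.eq_zero_or_pos K with h | h
    · obtain ⟨E, hE, hEc⟩ := Finset.exists_subset_card_eq hK1
      exact ⟨E, hE, hEc, fun k hk => by omega⟩
    · have h1 : ball C (K - 1) ⊆ ball C K := ball_mono h0 (by omega)
      obtain ⟨E, hE1, hE2, hE3⟩ := Finset.exists_subsuperset_card_eq h1
        (hK2 (K - 1) (by omega)).le hK1
      exact ⟨E, hE2, hE3, fun k hk => (ball_mono h0 (by omega)).trans hE1⟩
  refine ⟨E, hEcard, fun g hg => ball_closure K g (hEsub hg), ?_⟩
  intro f l hf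
  -- pointwise bound
  have hpt : ∀ g ∈ E, f g ≤ ((Finset.range K).filter (fun k => g ∉ ball C k)).card * l := by
    intro g hg
    have hexg : ∃ j, g ∈ ball C j := ⟨K, hEsub hg⟩
    have hj := Nat.find_spec hexg
    have hjK : Nat.find hexg ≤ K := Nat.find_min' hexg (hEsub hg)
    have hset : (Finset.range K).filter (fun k => g ∉ ball C k) = Finset.range (Nat.find hexg) := by
      ext k
      rw [Finset.mem_filter, Finset.mem_range, Finset.mem_range]
      constructor
      · rintro ⟨_, h2⟩
        by_contra hcon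
        push Not at hcon
        exact h2 (ball_mono h0 hcon hj)
      · intro h
        exact ⟨by omega, Nat.find_min hexg h⟩
    rw [hset, Finset.card_range]
    exact hf _ g hj
  have hsum : ∑ g ∈ E, f g ≤ (∑ k ∈ Finset.range K, (e - (ball C k).card)) * l := by
    calc ∑ g ∈ E, f g ≤ ∑ g ∈ E, ((Finset.range K).filter (fun k => g ∉ ball C k)).card * l :=
          Finset.sum_le_sum hpt
      _ = (∑ g ∈ E, ((Finset.range K).filter (fun k => g ∉ ball C k)).card) * l := by
          rw [Finset.sum_mul]
      _ = (∑ k ∈ Finset.range K, (E.filter (fun g => g ∉ ball C k)).card) * l := by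
          congr 1
          exact Finset.sum_card_bipartiteAbove_eq_sum_card_bipartiteBelow (fun g k => g ∉ ball C k)
      _ = (∑ k ∈ Finset.range K, (e - (ball C k).card)) * l := by
          congr 1
          apply Finset.sum_congr rfl
          intro k hk
          rw [Finset.mem_range] at hk
          rw [← hEcard, ← Finset.card_sdiff_of_subset (hEsup k hk)]
          congr 1
          ext g
          simp [Finset.mem_filter, Finset.mem_sdiff]
  have hL : C.card * (∑ k ∈ Finset.range K, (e - (ball C k).card)) ≤ e ^ 2 := by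
    rcases Nat.eq_zero_or_pos K with h | h
    · rw [h]; simp
    · obtain ⟨j, hj⟩ : ∃ j, K = j + 1 := ⟨K - 1, by omega⟩
      rw [hj, Finset.sum_range_succ']
      have hb0 : (ball C 0).card = 1 := by simp [ball]
      rw [hb0]
      have h1 : ∀ i ∈ Finset.range j, (2 : ℤ) * ((e - (ball C (i + 1)).card : ℕ) : ℤ) ≤
          2 * (e : ℤ) - ((i : ℤ) + 2) * C.card := by
        intro i hi
        rw [Finset.mem_range] at hi
        have h2 := hK2 (i + 1) (by omega)
        have h3 : (i + 2) * C.card ≤ 2 * (ball C (i + 1)).card := by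
          rcases hsize i with h | h
          · omega
          · exact h
        have h4 : ((i : ℤ) + 2) * C.card ≤ 2 * ((ball C (i + 1)).card : ℤ) := by exact_mod_cast h3
        rw [Nat.cast_sub h2.le]
        linarith
      have h2 : (2 : ℤ) * ∑ i ∈ Finset.range j, ((e - (ball C (i + 1)).card : ℕ) : ℤ) ≤
          ∑ i ∈ Finset.range j, (2 * (e : ℤ) - ((i : ℤ) + 2) * C.card) := by
        rw [Finset.mul_sum]; exact Finset.sum_le_sum h1
      have h3 : ∀ j : ℕ, (2 : ℤ) * ∑ i ∈ Finset.range j, (2 * (e : ℤ) - ((i : ℤ) + 2) * C.card) =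
          4 * j * e - C.card * (j * (j + 3)) := by
        intro j
        induction j with
        | zero => simp
        | succ j ih =>
          rw [Finset.sum_range_succ, mul_add, ih]
          push_cast
          ring
      have h4 := h3 j
      have he' : (C.card : ℤ) ≤ e := by exact_mod_cast he
      have hC' : (1 : ℤ) ≤ C.card := by exact_mod_cast hCpos
      have he1 : 1 ≤ e := by omega
      have goal : (C.card : ℤ) * ((∑ i ∈ Finset.range j, ((e - (ball C (i + 1)).card : ℕ) : ℤ))
          + ((e : ℤ) - 1)) ≤ (e : ℤ) ^ 2 := by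
        set c : ℤ := (C.card : ℤ)
        set S : ℤ := ∑ i ∈ Finset.range j, ((e - (ball C (i + 1)).card : ℕ) : ℤ)
        have h5 : 4 * S ≤ 4 * j * e - c * (j * (j + 3)) := by linarith
        have h6 : 4 * (c * (S + (e - 1))) ≤ c * (4 * j * e - c * (j * (j + 3)) + 4 * (e - 1)) := by
          have : c * (4 * S) ≤ c * (4 * j * e - c * (j * (j + 3))) :=
            mul_le_mul_of_nonneg_left h5 (by linarith)
          linarith
        have h7 : c * (4 * j * e - c * (j * (j + 3)) + 4 * (e - 1)) ≤ 4 * (e : ℤ) ^ 2 := by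
          rcases Nat.eq_zero_or_pos j with hj0 | hj0
          · rw [hj0]
            push_cast
            nlinarith
          · have hj1 : (1 : ℤ) ≤ j := by exact_mod_cast hj0
            have h8 : 0 ≤ (2 * (e : ℤ) - c * (j + 1)) ^ 2 := sq_nonneg _
            have h9 : 0 ≤ c ^ 2 * ((j : ℤ) - 1) := mul_nonneg (sq_nonneg _) (by linarith)
            nlinarith
        linarith
      have hcast : ((C.card * (∑ i ∈ Finset.range j, (e - (ball C (i + 1)).card) + (e - 1)) : ℕ) : ℤ)
          ≤ ((e ^ 2 : ℕ) : ℤ) := by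
        push_cast [Nat.cast_sub he1]
        exact goal
      exact_mod_cast hcast
  calc C.card * (∑ g ∈ E, f g) ≤ C.card * ((∑ k ∈ Finset.range K, (e - (ball C k).card)) * l) := by
        gcongr
    _ = (C.card * (∑ k ∈ Finset.range K, (e - (ball C k).card))) * l := by ring
    _ ≤ e ^ 2 * l := by gcongr
    _ = l * e ^ 2 := by ring

end Pool.Agent.Lib.Pd40e3c
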