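import Mathlib
import Pool.Agent.Lib.Pd40e3c.Lambda

open scoped Pointwise

namespace Pool.Agent.Lib.Pd40e3c

variable {G : Type*} [AddCommGroup G] [DecidableEq G]

open Classical in
/-- The part of `B` in the coset `c` of `H`. -/
noncomputable def piece (H : AddSubgroup G) (B : Finset G) (c : G ⧸ H) : Finset G :=
  B.filter (fun x => (QuotientAddGroup.mk x : G ⧸ H) = c)

lemma mem_piece {H : AddSubgroup G} {B : Finset G} {c : G ⧸ H} {x : G} :
    x ∈ piece H B c ↔ x ∈ B ∧ (QuotientAddGroup.mk x : G ⧸ H) = c := by
  classical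
  rw [piece, Finset.mem_filter]

open Classical in
/-- size of the smaller of a piece of size `b` of a coset of `H` and its complement. -/
noncomputable def dd (H : AddSubgroup G) (b : ℕ) : ℕ :=
  if Finite H then min b (Nat.card H - b) else b

lemma mk_add_mem {H : AddSubgroup G} {x g : G} (hg : g ∈ H) :
    (QuotientAddGroup.mk (x + g) : G ⧸ H) = QuotientAddGroup.mk x := by
  rw [QuotientAddGroup.eq]
  have : -(x + g) + x = -g := by abel
  rw [this]; exact neg_mem hg

private lemma light (H : AddSubgroup G) (B : Finset G) (c : G ⧸ H) (E : Finset G)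
    (hE : ∀ g ∈ E, g ∈ H) :
    E.card * (piece H B c).card ≤
      (∑ g ∈ E, ((piece H B c).filter (fun b => b + g ∉ B)).card) +
        (piece H B c).card * (piece H B c).card := by
  classical
  set P := piece H B c with hP
  have h1 : ∑ g ∈ E, (P.filter (fun b => b + g ∉ B)).card =
      ∑ b ∈ P, (E.filter (fun g => b + g ∉ B)).card :=
    Finset.sum_card_bipartiteAbove_eq_sum_card_bipartiteBelow (fun g b => b + g ∉ B)
  have h2 : ∀ b ∈ P, E.card ≤ (E.filter (fun g => b + g ∉ B)).card + P.card := by
    intro b hb
    have h3 : (E.filter (fun g => b + g ∈ B)).card ≤ P.card := by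
      apply Finset.card_le_card_of_injOn (fun g => b + g)
      · intro g hg
        have hg' := Finset.mem_filter.1 (Finset.mem_coe.1 hg)
        rw [Finset.mem_coe, hP, mem_piece]
        refine ⟨hg'.2, ?_⟩
        rw [mk_add_mem (hE g hg'.1)]
        exact (mem_piece.1 hb).2
      · intro x _ y _ hxy
        simpa using hxy
    have h4 := Finset.card_filter_add_card_filter_not (s := E) (fun g => b + g ∈ B)
    omega
  rw [h1]
  calc E.card * P.card = ∑ b ∈ P, E.card := by rw [Finset.sum_const, smul_eq_mul, mul_comm]
    _ ≤ ∑ b ∈ P, ((E.filter (fun g => b + g ∉ B)).card + P.card) := Finset.sum_le_sum h2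
    _ = _ := by rw [Finset.sum_add_distrib, Finset.sum_const, smul_eq_mul]

/-- The complement of a piece inside its coset. -/
lemma exists_compl (H : AddSubgroup G) [Finite H] (B : Finset G) (c : G ⧸ H) :
    ∃ D : Finset G, (∀ y, y ∈ D ↔ (QuotientAddGroup.mk y : G ⧸ H) = c ∧ y ∉ B) ∧
      D.card + (piece H B c).card = Nat.card H := by
  classical
  obtain ⟨r, rfl⟩ := QuotientAddGroup.mk_surjective c
  have hfin : (H : Set G).Finite := Set.toFinite _
  set T : Finset G := hfin.toFinset.image (fun h => r + h) with hT
  have hTmem : ∀ y, y ∈ T ↔ (QuotientAddGroup.mk y : G ⧸ H) = QuotientAddGroup.mk r := by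
    intro y
    rw [hT, Finset.mem_image]
    constructor
    · rintro ⟨h, hh, rfl⟩
      exact mk_add_mem (by simpa using hh)
    · intro h
      rw [eq_comm, QuotientAddGroup.eq] at h
      exact ⟨-r + y, by simpa using h, by abel⟩
  have hTc : T.card = Nat.card H := by
    rw [hT, Finset.card_image_of_injective _ (add_right_injective r)]
    rw [← Nat.card_eq_card_finite_toFinset hfin]
    rfl
  refine ⟨T \ B, ?_, ?_⟩
  · intro y
    rw [Finset.mem_sdiff, hTmem]
  · have : piece H B (QuotientAddGroup.mk r) = T ∩ B := by
      ext y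
      rw [mem_piece, Finset.mem_inter, hTmem]
      tauto
    rw [this, ← hTc, add_comm, Finset.card_inter_add_card_sdiff]

private lemma heavy (H : AddSubgroup G) (B : Finset G) (c : G ⧸ H) (E : Finset G)
    (hE : ∀ g ∈ E, g ∈ H) (D : Finset G)
    (hD : ∀ y, y ∈ D ↔ (QuotientAddGroup.mk y : G ⧸ H) = c ∧ y ∉ B) :
    E.card * D.card ≤
      (∑ g ∈ E, ((piece H B c).filter (fun b => b + g ∉ B)).card) + D.card * D.card := by
  classical
  set P := piece H B c with hP
  have h0 : ∀ g ∈ E, (D.filter (fun y => y - g ∉ D)).card ≤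
      (P.filter (fun b => b + g ∉ B)).card := by
    intro g hg
    apply Finset.card_le_card_of_injOn (fun y => y - g)
    · intro y hy
      have hy' := Finset.mem_filter.1 (Finset.mem_coe.1 hy)
      have hyD := (hD y).1 hy'.1
      have hyc : (QuotientAddGroup.mk (y - g) : G ⧸ H) = c := by
        rw [sub_eq_add_neg, mk_add_mem (neg_mem (hE g hg))]; exact hyD.1
      rw [Finset.mem_coe, Finset.mem_filter, hP, mem_piece]
      refine ⟨⟨?_, hyc⟩, ?_⟩
      · by_contra hcon
        exact hy'.2 ((hD _).2 ⟨hyc, hcon⟩)
      · simpa using hyD.2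
    · intro x _ y _ hxy
      simpa using hxy
  have h1 : ∑ g ∈ E, (D.filter (fun y => y - g ∉ D)).card =
      ∑ y ∈ D, (E.filter (fun g => y - g ∉ D)).card :=
    Finset.sum_card_bipartiteAbove_eq_sum_card_bipartiteBelow (fun g y => y - g ∉ D)
  have h2 : ∀ y ∈ D, E.card ≤ (E.filter (fun g => y - g ∉ D)).card + D.card := by
    intro y hy
    have h3 : (E.filter (fun g => y - g ∈ D)).card ≤ D.card := by
      apply Finset.card_le_card_of_injOn (fun g => y - g)
      · intro g hg
        exact (Finset.mem_filter.1 (Finset.mem_coe.1 hg)).2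
      · intro a _ b _ hab
        simpa using hab
    have h4 := Finset.card_filter_add_card_filter_not (s := E) (fun g => y - g ∈ D)
    omega
  calc E.card * D.card = ∑ y ∈ D, E.card := by rw [Finset.sum_const, smul_eq_mul, mul_comm]
    _ ≤ ∑ y ∈ D, ((E.filter (fun g => y - g ∉ D)).card + D.card) := Finset.sum_le_sum h2
    _ = (∑ g ∈ E, (D.filter (fun y => y - g ∉ D)).card) + D.card * D.card := by
        rw [Finset.sum_add_distrib, Finset.sum_const, smul_eq_mul, h1]
    _ ≤ _ := Nat.add_le_add_right (Finset.sum_le_sum h0) _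

lemma piece_bound (H : AddSubgroup G) (B : Finset G) (c : G ⧸ H) (E : Finset G)
    (hE : ∀ g ∈ E, g ∈ H) :
    E.card * dd H (piece H B c).card ≤
      (∑ g ∈ E, ((piece H B c).filter (fun b => b + g ∉ B)).card) +
        dd H (piece H B c).card * dd H (piece H B c).card := by
  classical
  by_cases hfin : Finite H
  · obtain ⟨D, hD, hDc⟩ := exists_compl H B c
    rcases le_total (piece H B c).card (Nat.card H - (piece H B c).card) with h | h
    · have : dd H (piece H B c).card = (piece H B c).card := by
        rw [dd, if_pos hfin, min_eq_left h]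
      rw [this]; exact light H B c E hE
    · have : dd H (piece H B c).card = D.card := by
        rw [dd, if_pos hfin, min_eq_right h]; omega
      rw [this]; exact heavy H B c E hE D hD
  · have : dd H (piece H B c).card = (piece H B c).card := by
      rw [dd, if_neg hfin]
    rw [this]; exact light H B c E hE

open Classical in
/-- total distance of `B` from unions of `H`-cosets -/
noncomputable def Dsum (H : AddSubgroup G) (B : Finset G) : ℕ :=
  ∑ c ∈ B.image (QuotientAddGroup.mk : G → G ⧸ H), dd H (piece H B c).card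

open Classical in
lemma sum_lam_eq (H : AddSubgroup G) (B : Finset G) (E : Finset G) :
    ∑ g ∈ E, lam B g = ∑ c ∈ B.image (QuotientAddGroup.mk : G → G ⧸ H),
      ∑ g ∈ E, ((piece H B c).filter (fun b => b + g ∉ B)).card := by
  rw [Finset.sum_comm]
  apply Finset.sum_congr rfl
  intro g _
  rw [lam, Finset.card_eq_sum_card_fiberwise (f := (QuotientAddGroup.mk : G → G ⧸ H))
    (t := B.image (QuotientAddGroup.mk : G → G ⧸ H))]
  · apply Finset.sum_congr rfl
    intro c _
    congr 1
    ext x
    simp only [Finset.mem_filter, mem_piece]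
    tauto
  · intro x hx
    have := Finset.mem_filter.1 (Finset.mem_coe.1 hx)
    exact Finset.mem_coe.2 (Finset.mem_image_of_mem _ this.1)

/-- **Main gain lemma**: some element of `X` has large `λ_B`. -/
theorem exists_gain (X : Finset G) (hX : X.Nonempty) (hanti : ∀ x ∈ X, -x ∉ X) (B : Finset G) :
    ∃ ξ ∈ X, min (Dsum (AddSubgroup.closure (X : Set G)) B) X.card ≤ 2 * lam B ξ := by
  classical
  obtain ⟨ξ, hξ, hmax⟩ := Finset.exists_max_image X (lam B) hX
  refine ⟨ξ, hξ, ?_⟩
  set H := AddSubgroup.closure (X : Set G) with hH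
  set C : Finset G := insert 0 (X ∪ -X) with hC
  have h0X : (0 : G) ∉ X := fun h => hanti 0 h (by simpa using h)
  have h0C : (0 : G) ∈ C := Finset.mem_insert_self _ _
  have hsym : ∀ c ∈ C, -c ∈ C := by
    intro c hc
    rw [hC, Finset.mem_insert, Finset.mem_union, Finset.mem_neg'] at hc ⊢
    rcases hc with rfl | h | h
    · left; simp
    · right; right; simpa using h
    · right; left; exact h
  have hCH : AddSubgroup.closure (C : Set G) = H := by
    apply le_antisymm
    · rw [AddSubgroup.closure_le]
      intro c hc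
      rw [Finset.mem_coe, hC, Finset.mem_insert, Finset.mem_union, Finset.mem_neg'] at hc
      rcases hc with rfl | h | h
      · exact zero_mem _
      · exact AddSubgroup.subset_closure h
      · have : -c ∈ H := AddSubgroup.subset_closure h
        have := neg_mem this
        rwa [neg_neg] at this
    · apply AddSubgroup.closure_mono
      intro x hx
      exact Finset.mem_coe.2 (Finset.mem_insert_of_mem (Finset.mem_union_left _ hx))
  have hdisj : Disjoint X (-X) := by
    rw [Finset.disjoint_left]
    intro x hx hx'
    exact hanti x hx (Finset.mem_neg'.1 hx')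
  have h0U : (0 : G) ∉ X ∪ -X := by
    rw [Finset.mem_union, Finset.mem_neg', neg_zero]
    tauto
  have hCc : C.card = 2 * X.card + 1 := by
    rw [hC, Finset.card_insert_of_notMem h0U, Finset.card_union_of_disjoint hdisj,
      Finset.card_neg]
    ring
  have hlC : ∀ c ∈ C, lam B c ≤ lam B ξ := by
    intro c hc
    rw [hC, Finset.mem_insert, Finset.mem_union, Finset.mem_neg'] at hc
    rcases hc with rfl | h | h
    · rw [lam_zero]; exact Nat.zero_le _
    · exact hmax c h
    · rw [← lam_neg]; exact hmax (-c) h
  by_cases hcase : ∃ c ∈ B.image (QuotientAddGroup.mk : G → G ⧸ H),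
      X.card + 1 ≤ dd H (piece H B c).card
  · -- Case B : a big piece
    obtain ⟨c, hc, hd⟩ := hcase
    set d := dd H (piece H B c).card with hdd
    have hT : ∃ T : Finset G, 2 * d ≤ T.card ∧ ∀ t ∈ T, t ∈ AddSubgroup.closure (C : Set G) := by
      rw [hCH]
      by_cases hfin : Finite H
      · have hfin' : (H : Set G).Finite := Set.toFinite _
        refine ⟨hfin'.toFinset, ?_, fun t ht => by simpa using ht⟩
        have h1 : hfin'.toFinset.card = Nat.card H := by
          rw [← Nat.card_eq_card_finite_toFinset hfin']; rfl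
        rw [h1, hdd, dd, if_pos hfin]
        omega
      · have hinf : (H : Set G).Infinite := by
          rwa [← Set.infinite_coe_iff, ← not_finite_iff_infinite]
        obtain ⟨T, hT1, hT2⟩ := hinf.exists_subset_card_eq (2 * d)
        exact ⟨T, hT2.ge, fun t ht => hT1 ht⟩
    obtain ⟨E, hEc, hEH, hE⟩ := exists_test h0C hsym (2 * d) (by omega) hT
    have h1 := hE (lam B) (lam B ξ) (fun n g hg => lam_ball hlC n g hg)
    rw [hCH] at hEH
    have h2 := piece_bound H B c E hEH
    rw [← hdd, hEc] at h2
    have h3 : (∑ g ∈ E, ((piece H B c).filter (fun b => b + g ∉ B)).card) ≤ ∑ g ∈ E, lam B g := by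
      apply Finset.sum_le_sum
      intro g _
      apply Finset.card_le_card
      intro x hx
      rw [Finset.mem_filter, mem_piece] at hx
      exact Finset.mem_filter.2 ⟨hx.1.1, hx.2⟩
    have h4 : d * d ≤ ∑ g ∈ E, lam B g := by nlinarith
    have h5 : C.card * (d * d) ≤ lam B ξ * (2 * d) ^ 2 :=
      (Nat.mul_le_mul_left _ h4).trans h1
    have hdpos : 0 < d * d := by
      have : 0 < d := by omega
      positivity
    have h6 : C.card ≤ lam B ξ * 4 := by
      have : C.card * (d * d) ≤ (lam B ξ * 4) * (d * d) := by
        calc _ ≤ _ := h5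
          _ = _ := by ring
      exact Nat.le_of_mul_le_mul_right this hdpos
    have : X.card ≤ 2 * lam B ξ := by omega
    exact (min_le_right _ _).trans this
  · -- Case A : all pieces small
    push Not at hcase
    have hCsub : ∀ g ∈ C, g ∈ H := by
      intro g hg
      rw [← hCH]; exact AddSubgroup.subset_closure hg
    have h1 : ∑ g ∈ C, lam B g ≤ 2 * X.card * lam B ξ := by
      rw [hC, Finset.sum_insert h0U, lam_zero, zero_add]
      calc ∑ g ∈ X ∪ -X, lam B g ≤ ∑ g ∈ X ∪ -X, lam B ξ :=
            Finset.sum_le_sum (fun g hg => hlC g (Finset.mem_insert_of_mem hg))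
        _ = 2 * X.card * lam B ξ := by
            rw [Finset.sum_const, smul_eq_mul, Finset.card_union_of_disjoint hdisj,
              Finset.card_neg]
            ring
    have h2 : Dsum H B * (X.card + 1) ≤ ∑ g ∈ C, lam B g := by
      rw [sum_lam_eq H B C, Dsum, Finset.sum_mul]
      apply Finset.sum_le_sum
      intro c hc
      have h3 := piece_bound H B c C hCsub
      have h4 := hcase c hc
      rw [hCc] at h3
      set d := dd H (piece H B c).card
      have h5 : d * d ≤ d * X.card := Nat.mul_le_mul_left _ (by omega)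
      nlinarith
    have h3 : Dsum H B * (X.card + 1) ≤ 2 * X.card * lam B ξ := h2.trans h1
    have hXpos : 0 < X.card := hX.card_pos
    have h4 : Dsum H B ≤ 2 * lam B ξ := by
      by_contra hcon
      push Not at hcon
      have h5 : (2 * lam B ξ + 1) * (X.card + 1) ≤ Dsum H B * (X.card + 1) :=
        Nat.mul_le_mul_right _ hcon
      nlinarith
    exact (min_le_left _ _).trans h4

end Pool.Agent.Lib.Pd40e3c
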