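import Mathlib
import Pool.Agent.Lib.Pd40e3c.Coset

open scoped Pointwise

namespace Pool.Agent.Lib.Pd40e3c

variable {G : Type*} [AddCommGroup G] [DecidableEq G]

/-- all subset sums (including the empty sum) -/
def ss (S : Finset G) : Finset G := S.powerset.image (fun T => ∑ x ∈ T, x)

/-- no nonempty zero-sum subset -/
def ZSF (S : Finset G) : Prop := ∀ T ⊆ S, T.Nonempty → ∑ x ∈ T, x ≠ 0

/-- no element together with its negative -/
def Anti (S : Finset G) : Prop := ∀ x ∈ S, -x ∉ S

lemma mem_ss {S : Finset G} {y : G} : y ∈ ss S ↔ ∃ T ⊆ S, ∑ x ∈ T, x = y := by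
  simp [ss]

lemma zero_mem_ss (S : Finset G) : (0 : G) ∈ ss S := mem_ss.2 ⟨∅, Finset.empty_subset _, by simp⟩

lemma ss_mono {S T : Finset G} (h : S ⊆ T) : ss S ⊆ ss T := by
  intro y hy
  obtain ⟨U, hU, rfl⟩ := mem_ss.1 hy
  exact mem_ss.2 ⟨U, hU.trans h, rfl⟩

lemma ZSF.mono {S T : Finset G} (hT : ZSF T) (h : S ⊆ T) : ZSF S :=
  fun U hU => hT U (hU.trans h)

lemma Anti.mono {S T : Finset G} (hT : Anti T) (h : S ⊆ T) : Anti S :=
  fun x hx hx' => hT x (h hx) (h hx')

lemma ss_pos (S : Finset G) : 1 ≤ (ss S).card := Finset.card_pos.2 ⟨0, zero_mem_ss S⟩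

lemma card_ss_ge {S : Finset G} (hS : ZSF S) : S.card + 1 ≤ (ss S).card := by
  have h0 : (0 : G) ∉ S := by
    intro h
    exact hS {0} (by simpa using h) (by simp) (by simp)
  rw [← Finset.card_insert_of_notMem h0]
  apply Finset.card_le_card
  intro x hx
  rcases Finset.mem_insert.1 hx with rfl | h
  · exact zero_mem_ss S
  · exact mem_ss.2 ⟨{x}, by simpa using h, by simp⟩

lemma ss_insert {S : Finset G} {x : G} (hx : x ∉ S) :
    (ss (insert x S)).card = (ss S).card + lam (ss S) x := by
  have h1 : ss (insert x S) = ss S ∪ ((ss S).filter (fun b => b + x ∉ ss S)).image (fun b => b + x) := by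
    ext y
    rw [Finset.mem_union, Finset.mem_image]
    constructor
    · intro hy
      by_cases hyS : y ∈ ss S
      · left; exact hyS
      · right
        obtain ⟨T, hT, rfl⟩ := mem_ss.1 hy
        have hxT : x ∈ T := by
          by_contra hxT
          apply hyS
          exact mem_ss.2 ⟨T, (Finset.subset_insert_iff_of_notMem hxT).1 hT, rfl⟩
        have hsum : (∑ z ∈ T.erase x, z) + x = ∑ z ∈ T, z := Finset.sum_erase_add _ _ hxT
        refine ⟨∑ z ∈ T.erase x, z, Finset.mem_filter.2 ⟨?_, ?_⟩, hsum⟩
        · exact mem_ss.2 ⟨T.erase x, Finset.erase_subset_iff_of_mem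
            (Finset.mem_insert_self x S) |>.2 hT |> fun h => by
              intro z hz
              have hz' := Finset.mem_erase.1 hz
              rcases Finset.mem_insert.1 (hT hz'.2) with h | h
              · exact absurd h hz'.1
              · exact h, rfl⟩
        · rw [hsum]; exact hyS
    · rintro (hy | ⟨b, hb, rfl⟩)
      · exact ss_mono (Finset.subset_insert _ _) hy
      · obtain ⟨T, hT, hTs⟩ := mem_ss.1 (Finset.mem_filter.1 hb).1
        refine mem_ss.2 ⟨insert x T, Finset.insert_subset_insert _ hT, ?_⟩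
        rw [Finset.sum_insert (fun h => hx (hT h)), hTs, add_comm]
  have h2 : Disjoint (ss S) (((ss S).filter (fun b => b + x ∉ ss S)).image (fun b => b + x)) := by
    rw [Finset.disjoint_left]
    intro y hy hy'
    obtain ⟨b, hb, rfl⟩ := Finset.mem_image.1 hy'
    exact (Finset.mem_filter.1 hb).2 hy
  rw [h1, Finset.card_union_of_disjoint h2, Finset.card_image_of_injective _ (add_left_injective x)]
  rfl

lemma ss_add {S X : Finset G} (hX : X ⊆ S) {y z : G} (hy : y ∈ ss (S \ X)) (hz : z ∈ ss X) :
    y + z ∈ ss S := by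
  obtain ⟨T, hT, rfl⟩ := mem_ss.1 hy
  obtain ⟨U, hU, rfl⟩ := mem_ss.1 hz
  refine mem_ss.2 ⟨T ∪ U, Finset.union_subset (hT.trans Finset.sdiff_subset) (hU.trans hX), ?_⟩
  apply Finset.sum_union
  rw [Finset.disjoint_left]
  intro a ha ha'
  exact (Finset.mem_sdiff.1 (hT ha)).2 (hU ha')

lemma neg_notMem_ss {S X : Finset G} (hS : ZSF S) (hX : X ⊆ S) {z : G} (hz : z ∈ X) :
    -z ∉ ss (S \ X) := by
  intro h
  obtain ⟨T, hT, hTs⟩ := mem_ss.1 h
  have hzT : z ∉ T := fun h => (Finset.mem_sdiff.1 (hT h)).2 hz
  apply hS (insert z T)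
  · intro a ha
    rcases Finset.mem_insert.1 ha with rfl | h
    · exact hX hz
    · exact (Finset.mem_sdiff.1 (hT h)).1
  · exact Finset.insert_nonempty _ _
  · rw [Finset.sum_insert hzT, hTs, add_neg_cancel]

lemma ss_subset_closure {X : Finset G} {z : G} (hz : z ∈ ss X) :
    z ∈ AddSubgroup.closure (X : Set G) := by
  obtain ⟨T, hT, rfl⟩ := mem_ss.1 hz
  exact sum_mem (fun x hx => AddSubgroup.subset_closure (hT hx))

/-- The stuck case. -/
lemma stuck {S X : Finset G} (hS : ZSF S) (hX : X ⊆ S)
    (hD : Dsum (AddSubgroup.closure (X : Set G)) (ss (S \ X)) < X.card) :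
    (ss (S \ X)).card ≤ Dsum (AddSubgroup.closure (X : Set G)) (ss (S \ X)) ∨
      2 * (ss X).card ≤ (ss S).card := by
  classical
  set H := AddSubgroup.closure (X : Set G) with hH
  set B := ss (S \ X) with hB
  by_cases hall : ∀ c ∈ B.image (QuotientAddGroup.mk : G → G ⧸ H),
      dd H (piece H B c).card = (piece H B c).card
  · left
    rw [Dsum, Finset.sum_congr rfl hall]
    rw [Finset.card_eq_sum_card_fiberwise (f := (QuotientAddGroup.mk : G → G ⧸ H))
      (t := B.image (QuotientAddGroup.mk : G → G ⧸ H))
      (fun x hx => Finset.mem_coe.2 (Finset.mem_image_of_mem _ (Finset.mem_coe.1 hx)))]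
    apply le_of_eq
    apply Finset.sum_congr rfl
    intro c _
    congr 1
  · right
    push Not at hall
    obtain ⟨c, hc, hne⟩ := hall
    have hfin : Finite H := by
      by_contra hinf
      apply hne
      rw [dd, if_neg hinf]
    obtain ⟨D, hDm, hDc⟩ := exists_compl H B c
    have hDd : dd H (piece H B c).card = D.card := by
      have h1 : dd H (piece H B c).card =
        min (piece H B c).card (Nat.card H - (piece H B c).card) := by rw [dd, if_pos hfin]
      rw [h1] at hne ⊢
      omega
    have hDlt : D.card < X.card := by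
      have h1 : dd H (piece H B c).card ≤ Dsum H B :=
        Finset.single_le_sum (f := fun c => dd H (piece H B c).card)
          (fun _ _ => Nat.zero_le _) hc
      omega
    have hXH : ∀ z ∈ X, z ∈ H := fun z hz => AddSubgroup.subset_closure hz
    -- the coset is not `H`
    have hc0 : c ≠ QuotientAddGroup.mk (0 : G) := by
      rintro rfl
      have : X.card ≤ D.card := by
        apply Finset.card_le_card_of_injOn (fun z => -z)
        · intro z hz
          have hz' := Finset.mem_coe.1 hz
          rw [Finset.mem_coe, hDm]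
          refine ⟨?_, neg_notMem_ss hS hX hz'⟩
          have := mk_add_mem (H := H) (x := 0) (neg_mem (hXH z hz'))
          rwa [zero_add] at this
        · intro a _ b _ hab
          simpa using hab
      omega
    -- the whole coset is in `ss S`
    have hsX := card_ss_ge (hS.mono hX)
    have hcos : ∀ y : G, (QuotientAddGroup.mk y : G ⧸ H) = c → y ∈ ss S := by
      intro y hy
      have hex : ∃ z ∈ ss X, y - z ∉ D := by
        by_contra hcon
        push Not at hcon
        have : (ss X).card ≤ D.card := by
          apply Finset.card_le_card_of_injOn (fun z => y - z)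
          · intro z hz
            exact Finset.mem_coe.2 (hcon z (Finset.mem_coe.1 hz))
          · intro a _ b _ hab
            simpa using hab
        omega
      obtain ⟨z, hz, hzD⟩ := hex
      have hzH : z ∈ H := ss_subset_closure hz
      have hyz : (QuotientAddGroup.mk (y - z) : G ⧸ H) = c := by
        rw [sub_eq_add_neg, mk_add_mem (neg_mem hzH), hy]
      have hyzB : y - z ∈ B := by
        by_contra hcon
        exact hzD ((hDm _).2 ⟨hyz, hcon⟩)
      have := ss_add hX hyzB hz
      rwa [sub_add_cancel] at this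
    set T := D ∪ piece H B c with hT
    have hTc : T.card = Nat.card H := by
      rw [hT, Finset.card_union_of_disjoint, hDc]
      rw [Finset.disjoint_left]
      intro a ha ha'
      exact ((hDm a).1 ha).2 (mem_piece.1 ha').1
    have hTm : ∀ y ∈ T, (QuotientAddGroup.mk y : G ⧸ H) = c := by
      intro y hy
      rcases Finset.mem_union.1 hy with h | h
      · exact ((hDm y).1 h).1
      · exact (mem_piece.1 h).2
    have hHc : (ss X).card ≤ Nat.card H := by
      have hfin' : (H : Set G).Finite := Set.toFinite _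
      have h1 : hfin'.toFinset.card = Nat.card H := by
        rw [← Nat.card_eq_card_finite_toFinset hfin']; rfl
      rw [← h1]
      apply Finset.card_le_card
      intro z hz
      simpa using ss_subset_closure hz
    have hdisj : Disjoint (ss X) T := by
      rw [Finset.disjoint_left]
      intro z hz hz'
      apply hc0
      rw [← hTm z hz']
      have := mk_add_mem (H := H) (x := 0) (ss_subset_closure hz)
      rwa [zero_add] at this
    have hsub : ss X ∪ T ⊆ ss S :=
      Finset.union_subset (ss_mono hX) (fun y hy => hcos y (hTm y hy))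
    have := Finset.card_le_card hsub
    rw [Finset.card_union_of_disjoint hdisj] at this
    omega

/-- One step of the greedy process. -/
lemma step {S X : Finset G} (hS : ZSF S) (hA : Anti S) (hX : X ⊆ S) (hne : X.Nonempty) :
    2 * (ss X).card ≤ (ss S).card ∨ ∃ ξ ∈ X, ∃ l : ℕ,
      min (ss (S \ X)).card X.card ≤ 2 * l ∧
      (ss (S \ (X.erase ξ))).card = (ss (S \ X)).card + l := by
  obtain ⟨ξ, hξ, hgain⟩ := exists_gain X hne (hA.mono hX) (ss (S \ X))
  have hins : S \ (X.erase ξ) = insert ξ (S \ X) := by
    ext y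
    simp only [Finset.mem_sdiff, Finset.mem_erase, Finset.mem_insert, not_and]
    constructor
    · rintro ⟨h1, h2⟩
      by_cases h : y = ξ
      · left; exact h
      · right; exact ⟨h1, h2 h⟩
    · rintro (rfl | ⟨h1, h2⟩)
      · exact ⟨hX hξ, fun h => absurd rfl h⟩
      · exact ⟨h1, fun _ => h2⟩
  have hnot : ξ ∉ S \ X := fun h => (Finset.mem_sdiff.1 h).2 hξ
  have hcard : (ss (S \ (X.erase ξ))).card = (ss (S \ X)).card + lam (ss (S \ X)) ξ := by
    rw [hins, ss_insert hnot]
  by_cases hD : Dsum (AddSubgroup.closure (X : Set G)) (ss (S \ X)) < X.card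
  · rcases stuck hS hX hD with h | h
    · right
      exact ⟨ξ, hξ, _, by omega, hcard⟩
    · left; exact h
  · right
    exact ⟨ξ, hξ, _, by omega, hcard⟩

end Pool.Agent.Lib.Pd40e3c
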