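import Mathlib
import Pool.Agent.Lib.Pd40e3c.Process

open scoped Pointwise

namespace Pool.Agent.Lib.Pd40e3c

section base

variable {G : Type*} [AddCommGroup G] [DecidableEq G]

/-- iterating the step for the base case -/
private lemma base_iter {S : Finset G} (hS : ZSF S) (hA : Anti S) (i : ℕ)
    (hi : 4 * (i - 1) ≤ S.card) (hi' : i ≤ S.card) :
    (∃ X ⊆ S, X.Nonempty ∧ 3 * S.card ≤ 4 * X.card ∧ 2 * (ss X).card ≤ (ss S).card) ∨
    (∃ X ⊆ S, X.card = S.card - i ∧ i ^ 2 ≤ 16 * (ss (S \ X)).card ∧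
      i + 1 ≤ (ss (S \ X)).card) := by
  induction i with
  | zero =>
    right
    exact ⟨S, subset_rfl, by simp, by simp, by simpa using ss_pos (S \ S)⟩
  | succ i ih =>
    rcases ih (by omega) (by omega) with h | ⟨X, hX, hXc, h1, h2⟩
    · left; exact h
    · have hXne : X.Nonempty := by rw [← Finset.card_pos]; omega
      rcases step hS hA hX hXne with h | ⟨ξ, hξ, l, hl, hc⟩
      · left
        exact ⟨X, hX, hXne, by omega, h⟩
      · right
        refine ⟨X.erase ξ, (Finset.erase_subset _ _).trans hX, ?_, ?_, ?_⟩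
        · rw [Finset.card_erase_of_mem hξ, hXc]; omega
        · rw [hc]
          set b := (ss (S \ X)).card with hb
          have hX3 : 3 * i ≤ X.card := by omega
          rcases le_total b X.card with hbx | hbx
          · rw [min_eq_left hbx] at hl
            by_cases hi23 : i ≤ 23
            · have h5 : (i + 1) ^ 2 ≤ 24 * (i + 1) := by
                rw [pow_two]; exact Nat.mul_le_mul_right _ (by omega)
              omega
            · have h5 : 2 * (i + 1) ^ 2 ≤ 3 * i ^ 2 := by nlinarith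
              omega
          · rw [min_eq_right hbx] at hl
            have h5 : (i + 1) ^ 2 = i ^ 2 + 2 * i + 1 := by ring
            rcases Nat.eq_zero_or_pos i with h0 | h0
            · subst h0; omega
            · omega
        · rw [hc]
          have : 1 ≤ min (ss (S \ X)).card X.card := by
            rw [le_min_iff]; exact ⟨ss_pos _, hXne.card_pos⟩
          omega

/-- A priori quadratic bound: `|S|² ≤ 256 |Σ(S)|`. -/
theorem base {S : Finset G} (hS : ZSF S) (hA : Anti S) : S.card ^ 2 ≤ 256 * (ss S).card := by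
  induction hn : S.card using Nat.strong_induction_on generalizing S with
  | _ m ih =>
    by_cases hm : m ≤ 16
    · have h1 : m ^ 2 ≤ 16 ^ 2 := Nat.pow_le_pow_left hm 2
      have h2 := ss_pos S
      omega
    · push Not at hm
      rcases base_iter hS hA (m / 4 + 1) (by omega) (by omega) with
        ⟨X, hX, hXne, h1, h2⟩ | ⟨X, hX, hXc, h1, h2⟩
      · have hXS : X.card ≤ S.card := Finset.card_le_card hX
        have hne : X.card ≠ S.card := by
          intro h
          have := Finset.eq_of_subset_of_card_le hX h.ge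
          subst this
          have := ss_pos X
          omega
        have h3 := ih X.card (by omega) (hS.mono hX) (hA.mono hX) rfl
        have h4 : (3 * S.card) ^ 2 ≤ (4 * X.card) ^ 2 := Nat.pow_le_pow_left h1 2
        rw [hn] at h4
        nlinarith
      · have h3 : (ss (S \ X)).card ≤ (ss S).card :=
          Finset.card_le_card (ss_mono Finset.sdiff_subset)
        have h4 : m ≤ 4 * (m / 4 + 1) := by omega
        have h5 : m ^ 2 ≤ (4 * (m / 4 + 1)) ^ 2 := Nat.pow_le_pow_left h4 2
        nlinarith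

end base

/-- The uniform quadratic lower bound with constant `a` from size `N` on. -/
def P (a : ℝ) (N : ℕ) : Prop :=
  ∀ (G : Type) [AddCommGroup G] [DecidableEq G] (S : Finset G), ZSF S → Anti S → N ≤ S.card →
    a * (S.card : ℝ) ^ 2 ≤ ((ss S).card : ℝ)

lemma P_base : P (1 / 256) 0 := by
  intro G _ _ S hS hA _
  have h := base hS hA
  have : ((S.card : ℝ)) ^ 2 ≤ 256 * ((ss S).card : ℝ) := by exact_mod_cast h
  linarith

private lemma boost_iter {G : Type} [AddCommGroup G] [DecidableEq G] {S X0 : Finset G}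
    (hS : ZSF S) (hA : Anti S) (hX0 : X0 ⊆ S) (hb : S.card ≤ (ss (S \ X0)).card) (i : ℕ)
    (hi : i ≤ X0.card) :
    (∃ X ⊆ S, X0.card - i < X.card ∧ 2 * (ss X).card ≤ (ss S).card) ∨
    (∃ X ⊆ S, X.card = X0.card - i ∧ S.card ≤ (ss (S \ X)).card ∧
      X0.card ^ 2 ≤ 4 * (ss (S \ X)).card + X.card ^ 2) := by
  induction i with
  | zero =>
    right
    exact ⟨X0, hX0, by simp, hb, by omega⟩
  | succ i ih =>
    rcases ih (by omega) with ⟨X, hX, h1, h2⟩ | ⟨X, hX, hXc, h1, h2⟩
    · left; exact ⟨X, hX, by omega, h2⟩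
    · have hXne : X.Nonempty := by rw [← Finset.card_pos]; omega
      rcases step hS hA hX hXne with h | ⟨ξ, hξ, l, hl, hc⟩
      · left
        exact ⟨X, hX, by omega, h⟩
      · right
        have hXS : X.card ≤ S.card := Finset.card_le_card hX
        rw [min_eq_right (by omega)] at hl
        refine ⟨X.erase ξ, (Finset.erase_subset _ _).trans hX, ?_, ?_, ?_⟩
        · rw [Finset.card_erase_of_mem hξ, hXc]; omega
        · rw [hc]; omega
        · rw [hc, Finset.card_erase_of_mem hξ]
          obtain ⟨x, hx⟩ : ∃ x, X.card = x + 1 := ⟨X.card - 1, by have := hXne.card_pos; omega⟩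
          rw [hx] at h2 hl ⊢
          have : (x + 1) ^ 2 = x ^ 2 + 2 * x + 1 := by ring
          simp only [Nat.add_sub_cancel]
          omega

private lemma boost_arith (u y x s : ℝ) (h1 : 300 ≤ u) (h2 : 99 * u ≤ 100 * (y + 1))
    (h3 : 1000 * x ≤ 711 * u + 1000) (h4 : 0 ≤ x) (h5 : y ^ 2 ≤ 4 * s + x ^ 2) :
    23 / 200 * u ^ 2 ≤ s := by
  have h6 : (99 / 100 * u - 1) ^ 2 ≤ y ^ 2 := by
    apply pow_le_pow_left₀
    · linarith
    · linarith
  have h7 : x ^ 2 ≤ (711 / 1000 * u + 1) ^ 2 := by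
    apply pow_le_pow_left₀ h4
    linarith
  have h8 : 300 * u ≤ u ^ 2 := by nlinarith
  nlinarith

/-- Improving the constant. -/
lemma boost {a : ℝ} (ha : 0 < a) {N : ℕ} (hP : P a N) :
    ∃ N', P (min (101 / 100 * a) (23 / 200)) N' := by
  obtain ⟨M, hM⟩ := exists_nat_ge (10000 / a)
  refine ⟨max (max (100 * N) M) 300, ?_⟩
  intro G _ _ S hS hA hN'
  set m := S.card with hm
  have hmN : 100 * N ≤ m := by omega
  have hmM : M ≤ m := by omega
  have hm300 : 300 ≤ m := by omega
  have hmR : (300 : ℝ) ≤ m := by exact_mod_cast hm300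
  have hmpos : (0 : ℝ) < m := by linarith
  have ham : 10000 ≤ a * m := by
    have h1 : 10000 / a ≤ m := hM.trans (by exact_mod_cast hmM)
    rwa [div_le_iff₀' ha] at h1
  -- initial part
  obtain ⟨S0, hS0, hS0c⟩ := Finset.exists_subset_card_eq (s := S) (n := m / 100 + 1) (by omega)
  have hX0c : (S \ S0).card = m - (m / 100 + 1) := by
    rw [Finset.card_sdiff_of_subset hS0, hS0c]
  have hss : S \ (S \ S0) = S0 := Finset.sdiff_sdiff_eq_self hS0
  have hS0b : (m : ℝ) ≤ ((ss S0).card : ℝ) := by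
    have h1 := hP G S0 (hS.mono hS0) (hA.mono hS0) (by omega)
    have h2 : (m : ℝ) / 100 ≤ (S0.card : ℝ) := by
      rw [hS0c, div_le_iff₀ (by norm_num)]
      have : m ≤ (m / 100 + 1) * 100 := by omega
      exact_mod_cast this
    have h3 : a * ((m : ℝ) / 100) ^ 2 ≤ a * (S0.card : ℝ) ^ 2 := by gcongr
    nlinarith
  have hb : S.card ≤ (ss (S \ (S \ S0))).card := by
    rw [hss]; exact_mod_cast hS0b
  have hfin : 711 * m / 1000 + 1 ≤ (S \ S0).card := by omega
  rcases boost_iter hS hA (Finset.sdiff_subset : S \ S0 ⊆ S) hb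
    ((S \ S0).card - (711 * m / 1000 + 1)) (by omega) with ⟨X, hX, h1, h2⟩ | ⟨X, hX, hXc, h1, h2⟩
  · have hXc : 711 * m / 1000 + 1 < X.card := by omega
    have h3 := hP G X (hS.mono hX) (hA.mono hX) (by omega)
    have h4 : 711 * m ≤ 1000 * X.card := by omega
    have h5 : (711 : ℝ) * m ≤ 1000 * X.card := by exact_mod_cast h4
    have h6 : (2 : ℝ) * (ss X).card ≤ (ss S).card := by exact_mod_cast h2
    have h7 : (505 / 1000 : ℝ) * (m : ℝ) ^ 2 ≤ (X.card : ℝ) ^ 2 := by nlinarith
    have h8 : a * ((505 / 1000 : ℝ) * (m : ℝ) ^ 2) ≤ a * (X.card : ℝ) ^ 2 := by gcongr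
    have h9 : min (101 / 100 * a) (23 / 200) * (m : ℝ) ^ 2 ≤ (101 / 100 * a) * (m : ℝ) ^ 2 :=
      mul_le_mul_of_nonneg_right (min_le_left _ _) (sq_nonneg _)
    linarith
  · have h3 : (ss (S \ X)).card ≤ (ss S).card :=
      Finset.card_le_card (ss_mono Finset.sdiff_subset)
    have hXc' : X.card = 711 * m / 1000 + 1 := by omega
    have h4 : 1000 * X.card ≤ 711 * m + 1000 := by omega
    have h5 : (1000 : ℝ) * X.card ≤ 711 * m + 1000 := by exact_mod_cast h4
    have h6 : 99 * m ≤ 100 * ((S \ S0).card + 1) := by omega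
    have h7 : (99 : ℝ) * m ≤ 100 * (((S \ S0).card : ℝ) + 1) := by exact_mod_cast h6
    have h8 : ((S \ S0).card : ℝ) ^ 2 ≤ 4 * ((ss S).card : ℝ) + (X.card : ℝ) ^ 2 := by
      have : (S \ S0).card ^ 2 ≤ 4 * (ss S).card + X.card ^ 2 := by omega
      exact_mod_cast this
    have h9 : min (101 / 100 * a) (23 / 200) * (m : ℝ) ^ 2 ≤ (23 / 200) * (m : ℝ) ^ 2 :=
      mul_le_mul_of_nonneg_right (min_le_right _ _) (sq_nonneg _)
    have h10 := boost_arith (m : ℝ) ((S \ S0).card : ℝ) (X.card : ℝ) ((ss S).card : ℝ) hmR h7 h5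
      (Nat.cast_nonneg _) h8
    linarith

lemma P_iter (k : ℕ) : ∃ N, P (min ((101 / 100) ^ k * (1 / 256)) (23 / 200)) N := by
  induction k with
  | zero =>
    refine ⟨0, ?_⟩
    have : min ((101 / 100 : ℝ) ^ 0 * (1 / 256)) (23 / 200) = 1 / 256 := by norm_num
    rw [this]; exact P_base
  | succ k ih =>
    obtain ⟨N, hN⟩ := ih
    have hpos : (0 : ℝ) < min ((101 / 100) ^ k * (1 / 256)) (23 / 200) := by
      apply lt_min
      · positivity
      · norm_num
    obtain ⟨N', hN'⟩ := boost hpos hN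
    refine ⟨N', ?_⟩
    intro G _ _ S hS hA hc
    refine le_trans (mul_le_mul_of_nonneg_right ?_ (by positivity)) (hN' G S hS hA hc)
    rcases le_total ((101 / 100 : ℝ) ^ k * (1 / 256)) (23 / 200) with h | h
    · rw [min_eq_left h, pow_succ]
      apply le_of_eq
      congr 1
      ring
    · rw [min_eq_right h]
      have : min (101 / 100 * (23 / 200) : ℝ) (23 / 200) = 23 / 200 := by norm_num
      rw [this]
      exact min_le_right _ _

theorem P_final : ∃ N, P (23 / 200) N := by
  obtain ⟨k, hk⟩ := pow_unbounded_of_one_lt (30 : ℝ) (by norm_num : (1 : ℝ) < 101 / 100)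
  obtain ⟨N, hN⟩ := P_iter k
  refine ⟨N, ?_⟩
  have : min ((101 / 100 : ℝ) ^ k * (1 / 256)) (23 / 200) = 23 / 200 := by
    apply min_eq_right
    linarith
  rwa [this] at hN

end Pool.Agent.Lib.Pd40e3c
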